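import Pool.Agent.helper96.SV.SpecA

/-!
# sva:PDV (partial derivatives as derivatives of polynomials in one variable)
-/

set_option autoImplicit false
set_option linter.unusedSectionVars false

namespace Pool.Agent.SVA

open Polynomial Module

theorem PDV_aux {ι : Type} [DecidableEq ι] (x : ι → ℂ) (v w : ι) :
    (C (x w) + (if w = v then X else 0) : ℂ[X]).eval 0 = x w := by
  split_ifs <;> simp

theorem PDV_eval {ι : Type} [DecidableEq ι] (f : MvPolynomial ι ℂ) (x : ι → ℂ) (v : ι) (s : ℂ) :
    (MvPolynomial.aeval (fun w => C (x w) + (if w = v then X else 0) : ι → ℂ[X]) f).eval s =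
      MvPolynomial.eval (fun w => x w + if w = v then s else 0) f := by
  induction f using MvPolynomial.induction_on with
  | C a => simp
  | add p q hp hq => rw [map_add, eval_add, hp, hq, map_add]
  | mul_X p i hp =>
    rw [map_mul, eval_mul, hp, map_mul, MvPolynomial.aeval_X, MvPolynomial.eval_X, eval_add, eval_C]
    congr 2
    split_ifs <;> simp

theorem PDV_der {ι : Type} [DecidableEq ι] (f : MvPolynomial ι ℂ) (x : ι → ℂ) (v : ι) :
    (derivative (MvPolynomial.aeval
      (fun w => C (x w) + (if w = v then X else 0) : ι → ℂ[X]) f)).eval 0 =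
      MvPolynomial.eval x (MvPolynomial.pderiv v f) := by
  induction f using MvPolynomial.induction_on with
  | C a => simp
  | add p q hp hq => rw [map_add, derivative_add, eval_add, hp, hq, map_add, map_add]
  | mul_X p i hp =>
    have h0 : (MvPolynomial.aeval
        (fun w => C (x w) + (if w = v then X else 0) : ι → ℂ[X]) p).eval 0 =
        MvPolynomial.eval x p := by
      rw [PDV_eval]
      congr 2
      funext w
      split_ifs <;> simp
    rw [map_mul, MvPolynomial.aeval_X, derivative_mul, eval_add, eval_mul, eval_mul, hp, h0,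
      PDV_aux, MvPolynomial.pderiv_mul, MvPolynomial.eval_add, MvPolynomial.eval_mul,
      MvPolynomial.eval_mul, MvPolynomial.eval_X]
    congr 2
    rw [MvPolynomial.pderiv_X]
    by_cases h : i = v
    · subst h
      simp
    · simp [h, Pi.single_apply, Ne.symm h]

theorem PDV : PDV_stmt := by
  intro ι _ _ f x v
  exact ⟨PDV_der f x v, PDV_eval f x v⟩

end Pool.Agent.SVA
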